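import Pool.Agent.H33.NI.Main

/-!
# The converse of the theorem of Nitecki fails with very few residues

For positive integers `k₁, …, k_m` let `Σ` be the set of their subsums and let `E` be the achievement set of the
multigeometric series with the terms `k_i / n ^ j`, `j ≥ 1`. If `|Σ| = n` and the elements of `Σ` are pairwise
incongruent modulo `n` then `E` has positive measure (Nitecki). Question Q1 asks for the converse when no `k_i` is a
multiple of `n`. The library (`AllComposite`) has counterexamples for every `n` which is neither a prime power nor a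
product of two primes: some two elements of `Σ` are congruent modulo `n`.

Let `r ≥ 2` be a divisor of `n` which is not a prime power. We prove that there are `k₁, …, k_m` without common
divisor, none a multiple of `n`, such that `|Σ| = n`, the measure of `E` is at least `n / r`, the set `E` has interior
points, and the elements of `Σ` meet exactly `r` residue classes modulo `n`, each of them in exactly `n / r` elements.
So for every multiple `n` of `6` the set `Σ` may meet only six residue classes modulo `n`, while the measure of `E` is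
at least `n / 6`.

The proof. Let `r = u w` with coprime `u, w ≥ 2`, let `n = u v w`, and take `u - 1` times the number `1` and
`v w - 1` times the number `d = u² v`; so the subsums are the `a + d b` with `a < u`, `b < v w`. As `d w = n u`, a digit
`b = b' + w b''` at the place `j` is a digit `b'` at the place `j` and the digit `u b''` at the place `j - 1`, and the
numbers `a + u b'' + d b'` with `a < u`, `b'' < v`, `b' < w` are a complete residue system `D` modulo `n`. So `E`
contains the translates `T + u b''`, `b'' < v`, of the set `T` of the sums with digits in `D`. The integer translates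
of `T` cover the line (`cover`), so the measure of `T` is at least one, and as `n T` is the union of the `n` sets
`T + x`, `x ∈ D`, the measure of the union of any of them is the sum of the measures (`card_le_volume`).
-/

set_option autoImplicit false

open Set Filter Topology MeasureTheory

noncomputable section

namespace Pool.Agent.Results.MP_ee56ef_an.FewResidues

/-- the set `Σ` of the subsums of `k₁, …, k_m` -/
def subsums {m : ℕ} (k : Fin m → ℕ) : Finset ℕ :=
  (Finset.univ : Finset (Finset (Fin m))).image fun S => ∑ i ∈ S, k i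

/-- the term `k_i / n ^ j` of the multigeometric series, for the index `(j - 1, i)` -/
def term (n : ℕ) {m : ℕ} (k : Fin m → ℕ) (x : ℕ × Fin m) : ℝ := (k x.2 : ℝ) / (n : ℝ) ^ (x.1 + 1)

/-- the achievement set: the sums of the terms with indices in a set `A` -/
def achievementSet {ι : Type} (x : ι → ℝ) : Set ℝ := {y | ∃ A : Set ι, HasSum (A.indicator x) y}

/-- **few residues** -/
theorem result (n r : ℕ) (hn : 0 < n) (hr : 2 ≤ r) (hrn : r ∣ n) (hpp : ¬ IsPrimePow r) :
    ∃ (m : ℕ) (k : Fin m → ℕ), (∀ i, 0 < k i ∧ ¬ n ∣ k i) ∧ Finset.univ.gcd k = 1 ∧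
      (subsums k).card = n ∧
      ((n / r : ℕ) : ENNReal) ≤ volume (achievementSet (term n k)) ∧
      (interior (achievementSet (term n k))).Nonempty ∧
      ((subsums k).image fun s => s % n).card = r ∧
      ∀ s ∈ subsums k, ((subsums k).filter fun t => t % n = s % n).card = n / r := by
  -- the factors
  obtain ⟨u, w, hu, hw, huw, hruw⟩ : ∃ u w, 2 ≤ u ∧ 2 ≤ w ∧ Nat.Coprime u w ∧ r = u * w := by
    obtain ⟨p, hp⟩ : ∃ p, p = r.minFac := ⟨_, rfl⟩
    have hpr : p.Prime := by rw [hp]; exact Nat.minFac_prime (by omega)
    have hpd : p ∣ r := by rw [hp]; exact Nat.minFac_dvd r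
    have hr0 : r ≠ 0 := by omega
    refine ⟨ordProj[p] r, ordCompl[p] r, ?_, ?_, ?_, (Nat.ordProj_mul_ordCompl_eq_self r p).symm⟩
    · have h1 : 1 ≤ r.factorization p := (hpr.dvd_iff_one_le_factorization hr0).1 hpd
      calc 2 ≤ p := hpr.two_le
        _ = p ^ 1 := (pow_one p).symm
        _ ≤ p ^ r.factorization p := Nat.pow_le_pow_right hpr.pos h1
    · by_contra h
      have h0 : 0 < ordCompl[p] r := Nat.ordCompl_pos p hr0
      have h1 : ordCompl[p] r = 1 := by omega
      have h2 := Nat.ordProj_mul_ordCompl_eq_self r p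
      rw [h1, mul_one] at h2
      apply hpp
      rw [isPrimePow_nat_iff]
      exact ⟨p, r.factorization p, hpr, (hpr.factorization_pos_of_dvd hr0 hpd), h2⟩
    · exact (Nat.coprime_ordCompl hpr hr0).pow_left _
  obtain ⟨v, hv⟩ := hrn
  have hv0 : 1 ≤ v := by
    rcases Nat.eq_zero_or_pos v with h | h
    · rw [h, mul_zero] at hv
      omega
    · exact h
  have hnuvw : n = u * v * w := by
    rw [hv, hruw]
    ring
  have hnr : n / r = v := by
    rw [hv, Nat.mul_div_cancel_left v (by omega)]
  rw [hnr, hruw]
  subst hnuvw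
  have hvw : 1 ≤ v * w := Nat.one_le_iff_ne_zero.2 (by positivity)
  have hd : u - 1 < u * u * v := by
    have : u * 1 ≤ u * (u * v) := Nat.mul_le_mul_left u (by nlinarith)
    have h2 : u * (u * v) = u * u * v := by ring
    omega
  have hsub : subsums (H33.NI.kk (u - 1) (v * w - 1) (u * u * v)) =
      (Finset.range u ×ˢ Finset.range (v * w)).image fun x => x.1 + u * u * v * x.2 := by
    have h1 := H33.NI.subsums_eq (u - 1) (v * w - 1) (u * u * v)
    have h2 : u - 1 + 1 = u := by omega
    have h3 : v * w - 1 + 1 = v * w := by omega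
    rw [h2, h3] at h1
    exact h1
  have hcong := fun (a a' b b' : ℕ) (ha : a < u) (ha' : a' < u) =>
    H33.NI.cong (w := w) hu hv0 huw (b := b) (b' := b') ha ha'
  have hn2 : 2 ≤ u * v * w := by
    calc 2 ≤ 2 * 1 * 2 := by norm_num
      _ ≤ u * v * w := Nat.mul_le_mul (Nat.mul_le_mul hu hv0) hw
  have hne : Nonempty (Fin u × Fin v × Fin w) :=
    ⟨(⟨0, by omega⟩, ⟨0, by omega⟩, ⟨0, by omega⟩)⟩
  have hint : (interior (achievementSet (term (u * v * w)
      (H33.NI.kk (u - 1) (v * w - 1) (u * u * v))))).Nonempty := by
    refine (H33.NI.interior_phi (H33.NI.dig u v w) hn2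
      (H33.NI.dig_complete hu hv0 hw huw)).mono (interior_mono ?_)
    rintro _ ⟨ω, rfl⟩
    have h := H33.NI.point hu hv0 hw 0 hv0 ω
    rw [mul_zero, Nat.cast_zero, add_zero] at h
    exact h
  have hvol : (v : ENNReal) ≤ volume (achievementSet (term (u * v * w)
      (H33.NI.kk (u - 1) (v * w - 1) (u * u * v)))) := by
    obtain ⟨g, hg⟩ : ∃ g : Fin v → Fin u × Fin v × Fin w,
        g = fun b => (⟨0, by omega⟩, b, ⟨0, by omega⟩) := ⟨_, rfl⟩
    have hgi : Function.Injective g := by
      intro b b' h
      rw [hg] at h
      exact (Prod.ext_iff.1 (Prod.ext_iff.1 h).2).1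
    have h1 := H33.NI.card_le_volume (H33.NI.dig u v w) hn2
      (by simp [mul_assoc]) (H33.NI.dig_complete hu hv0 hw huw)
      (Finset.univ.map ⟨g, hgi⟩)
    rw [Finset.card_map, Finset.card_univ, Fintype.card_fin] at h1
    refine h1.trans (measure_mono ?_)
    intro y hy
    simp only [Finset.mem_map, Finset.mem_univ, true_and, Function.Embedding.coeFn_mk,
      Set.mem_iUnion, exists_prop] at hy
    obtain ⟨_, ⟨b, rfl⟩, ω, hω⟩ := hy
    have h2 := H33.NI.point hu hv0 hw b b.2 ω
    have h3 : H33.NI.dig u v w (g b) = u * b := by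
      rw [hg]
      simp [H33.NI.dig]
    rw [hω, h3, sub_add_cancel] at h2
    exact h2
  refine ⟨u - 1 + (v * w - 1), H33.NI.kk (u - 1) (v * w - 1) (u * u * v), ?_, ?_, ?_, ?_, ?_, ?_,
    ?_⟩
  · -- positive, not divisible by `n`
    have h8 : 4 ≤ u * v * w := by
      calc 4 = 2 * 1 * 2 := by norm_num
        _ ≤ u * v * w := Nat.mul_le_mul (Nat.mul_le_mul hu hv0) hw
    refine Fin.addCases (fun i => ?_) (fun i => ?_)
    · rw [H33.NI.kk, Fin.append_left]
      exact ⟨one_pos, fun h => by have := Nat.le_of_dvd one_pos h; omega⟩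
    · rw [H33.NI.kk, Fin.append_right]
      refine ⟨by omega, fun h => ?_⟩
      have h1 : w ∣ u := by
        have h2 : u * v * w ∣ u * v * u := by
          have : u * v * u = u * u * v := by ring
          rw [this]
          exact h
        exact Nat.dvd_of_mul_dvd_mul_left (by positivity) h2
      have h2 : w = 1 := Nat.eq_one_of_dvd_coprimes huw h1 dvd_rfl
      omega
  · -- no common divisor
    have h1 : Finset.univ.gcd (H33.NI.kk (u - 1) (v * w - 1) (u * u * v)) ∣ 1 := by
      have h2 := Finset.gcd_dvd (f := H33.NI.kk (u - 1) (v * w - 1) (u * u * v))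
        (Finset.mem_univ (Fin.castAdd (v * w - 1) (⟨0, by omega⟩ : Fin (u - 1))))
      rwa [H33.NI.kk, Fin.append_left] at h2
    exact Nat.dvd_one.1 h1
  · have h1 := H33.NI.card_subsums (u - 1) (v * w - 1) (u * u * v) hd
    have h2 : u - 1 + 1 = u := by omega
    have h3 : v * w - 1 + 1 = v * w := by omega
    rw [h2, h3] at h1
    exact h1.trans (mul_assoc u v w).symm
  · exact hvol
  · exact hint
  · -- the number of residues
    have h1 : ((subsums (H33.NI.kk (u - 1) (v * w - 1) (u * u * v))).image
        fun s => s % (u * v * w)) =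
        (Finset.range u ×ˢ Finset.range w).image fun x => (x.1 + u * u * v * x.2) % (u * v * w) := by
      rw [hsub, Finset.image_image]
      ext t
      simp only [Finset.mem_image, Finset.mem_product, Finset.mem_range, Prod.exists,
        Function.comp_apply]
      constructor
      · rintro ⟨a, b, ⟨ha, hb⟩, rfl⟩
        refine ⟨a, b % w, ⟨ha, Nat.mod_lt _ (by omega)⟩, ?_⟩
        exact (hcong _ _ _ _ ha ha).2 ⟨rfl, Nat.mod_mod _ _⟩
      · rintro ⟨a, b, ⟨ha, hb⟩, rfl⟩
        exact ⟨a, b, ⟨ha, hb.trans_le (by nlinarith)⟩, rfl⟩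
    rw [h1, Finset.card_image_of_injOn, Finset.card_product, Finset.card_range,
      Finset.card_range]
    rintro ⟨a, b⟩ h ⟨a', b'⟩ h' hab
    simp only [Finset.coe_product, Finset.coe_range, Set.mem_prod, Set.mem_Iio] at h h' hab
    obtain ⟨h2, h3⟩ := (hcong _ _ _ _ h.1 h'.1).1 hab
    rw [Nat.mod_eq_of_lt h.2, Nat.mod_eq_of_lt h'.2] at h3
    rw [h2, h3]
  · -- the number of subsums in a residue class
    intro s hs
    rw [hsub] at hs
    simp only [Finset.mem_image, Finset.mem_product, Finset.mem_range, Prod.exists] at hs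
    obtain ⟨a, b, ⟨ha, hb⟩, rfl⟩ := hs
    have h1 : ((subsums (H33.NI.kk (u - 1) (v * w - 1) (u * u * v))).filter fun t =>
        t % (u * v * w) = (a + u * u * v * b) % (u * v * w)) =
        (Finset.range v).image fun β => a + u * u * v * (b % w + w * β) := by
      rw [hsub]
      ext t
      simp only [Finset.mem_filter, Finset.mem_image, Finset.mem_product, Finset.mem_range,
        Prod.exists]
      constructor
      · rintro ⟨⟨a', b', ⟨ha', hb'⟩, rfl⟩, h⟩
        obtain ⟨h2, h3⟩ := (hcong _ _ _ _ ha' ha).1 h
        refine ⟨b' / w, ?_, ?_⟩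
        · exact Nat.div_lt_of_lt_mul (by rw [mul_comm]; exact hb')
        · rw [← h3, h2, Nat.mod_add_div]
      · rintro ⟨β, hβ, rfl⟩
        refine ⟨⟨a, b % w + w * β, ⟨ha, ?_⟩, rfl⟩, ?_⟩
        · have h2 := Nat.mod_lt b (show 0 < w by omega)
          have h3 : w * (β + 1) ≤ w * v := Nat.mul_le_mul_left w hβ
          have h4 : w * (β + 1) = w * β + w := by ring
          have h5 : w * v = v * w := mul_comm _ _
          omega
        · exact (hcong _ _ _ _ ha ha).2 ⟨rfl, by
            rw [Nat.add_mul_mod_self_left, Nat.mod_mod]⟩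
    rw [h1, Finset.card_image_of_injOn, Finset.card_range]
    intro β _ β' _ h
    have h2 : u * u * v * (b % w + w * β) = u * u * v * (b % w + w * β') := by
      have : a + u * u * v * (b % w + w * β) = a + u * u * v * (b % w + w * β') := h
      omega
    have h3 := Nat.eq_of_mul_eq_mul_left (by omega) h2
    exact Nat.eq_of_mul_eq_mul_left (show 0 < w by omega) (by omega)

end Pool.Agent.Results.MP_ee56ef_an.FewResidues
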